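import Mathlib
import Pool.Agent.R493.SC.Geo
import Pool.Agent.H362R2.CM.Box

set_option autoImplicit false

/-!
# Almost all sets of positions have large parts which are good at several scales
-/

open Finset Filter

namespace Pool.Agent.NH16.CC

open Pool.Agent.Y827.GS (cntN cntN_anti Adf)
open Pool.Agent.R493.SC (Pf Pf_anti classesN cntG geo_adf geo_loc cntN_le_cntG log_loss inj_card)
open Pool.Agent.R493.CP (nestG)

/-- disjoint sub-rows of rows with distinct entries -/
theorem disj_rows {α : Type} [DecidableEq α] (r K K' : ℕ) (hK : r * K ≤ K') (A : Fin r → Fin K' → α)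
    (hA : ∀ g, Function.Injective (A g)) :
    ∃ j : Fin r → Fin K → Fin K', Function.Injective (fun x : Fin r × Fin K => A x.1 (j x.1 x.2)) := by
  classical
  have h := (Finset.all_card_le_biUnion_card_iff_exists_injective
    (fun x : Fin r × Fin K => univ.image (A x.1))).1 (by
      intro s
      rcases s.eq_empty_or_nonempty with rfl | ⟨x, hx⟩
      · simp
      · have h1 : s.card ≤ r * K := by
          refine (card_le_univ s).trans ?_
          rw [Fintype.card_prod, Fintype.card_fin, Fintype.card_fin]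
        have h2 : (univ.image (A x.1)).card = K' := by
          rw [card_image_of_injective _ (hA x.1), card_univ, Fintype.card_fin]
        have h3 : (univ.image (A x.1)).card ≤ (s.biUnion (fun x : Fin r × Fin K => univ.image (A x.1))).card :=
          card_le_card (Finset.subset_biUnion_of_mem (fun x : Fin r × Fin K => univ.image (A x.1)) hx)
        omega)
  obtain ⟨f, hf, hfm⟩ := h
  have h4 : ∀ x : Fin r × Fin K, ∃ j, A x.1 j = f x := by
    intro x
    obtain ⟨j, _, hj⟩ := mem_image.1 (hfm x)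
    exact ⟨j, hj⟩
  choose j hj using h4
  refine ⟨fun g i => j (g, i), ?_⟩
  intro x y hxy
  have hxy' : A x.1 (j (x.1, x.2)) = A y.1 (j (y.1, y.2)) := hxy
  rw [hj (x.1, x.2), hj (y.1, y.2)] at hxy'
  exact hf hxy'

open Classical in
/-- almost all vectors of `r` positions have a large part which is good for several families of linear forms at
several scales -/
theorem almostSC (R r : ℕ) (ε : ℝ) (hε : 0 < ε) : ∃ n₀ C P : ℕ, ∀ A : ℕ, ∃ N₀ : ℕ,
    ∀ N : Fin R → ℕ, (∀ ρ, N₀ ≤ N ρ) → ∀ V : Finset ℕ, n₀ ≤ V.card → ∀ L : Fin R → ℕ → ℤ × ℤ,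
    (∀ ρ, Set.InjOn (L ρ) V) → (∀ ρ, ∀ v ∈ V, Adf A (N ρ) (L ρ v)) →
    (∀ ρ, ∀ p : ℕ, p.Prime → p ≤ P → ∃ r : ℤ, ∀ v ∈ V, ¬ (p : ℤ) ∣ (L ρ v).1 * r + (L ρ v).2) →
    ∃ D : Finset (Fin r → ℕ), (∀ y : Fin r → ℕ, (∀ i, y i ∈ V) → (∀ I : Finset (Fin r),
      5 ^ R * r ≤ 18 ^ R * I.card → ¬ ∀ ρ, Pf (L ρ) C (N ρ) (I.image y)) → y ∈ D) ∧
      (D.card : ℝ) ≤ ε * (V.card : ℝ) ^ r := by
  obtain ⟨Kc, Cc, hKc, hcl⟩ := classesN r
  obtain ⟨K₂, hK₂⟩ := nestG R r Kc
  obtain ⟨n₀, hn₀⟩ := Pool.Agent.H362R2.CM.box_lemma r (r * K₂) ε hε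
  refine ⟨n₀, Cc, r * Kc, fun A => ?_⟩
  obtain ⟨N₀, hN₀⟩ := hcl A
  refine ⟨N₀, fun N hN V hV L hinj hAd hloc => ?_⟩
  set D := (Fintype.piFinset (fun _ : Fin r => V)).filter (fun y => ¬ ∃ I : Finset (Fin r),
      5 ^ R * r ≤ 18 ^ R * I.card ∧ ∀ ρ, Pf (L ρ) Cc (N ρ) (I.image y)) with hD
  refine ⟨D, fun y hyV hy => ?_, ?_⟩
  · rw [hD, mem_filter]
    refine ⟨Fintype.mem_piFinset.2 hyV, ?_⟩
    rintro ⟨I, hI1, hI2⟩
    exact hy I hI1 hI2
  by_contra hcon
  rw [not_le] at hcon
  obtain ⟨B, hB1, hB2⟩ := hn₀ ℕ (fun _ => V) (fun _ => hV) D (filter_subset _ _) (by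
    rw [prod_const, card_univ, Fintype.card_fin]
    exact hcon.le)
  obtain ⟨j, hj⟩ := disj_rows r K₂ (r * K₂) le_rfl B hB1
  set H : Fin r → Fin K₂ → ℕ := fun g i => B g (j g i) with hH
  -- the entries belong to `V`
  have hHV : ∀ g i, H g i ∈ V := by
    intro g i
    have h1 := (mem_filter.1 (hB2 (fun _ => j g i))).1
    exact Fintype.mem_piFinset.1 h1 g
  obtain ⟨S, c, hS, hG⟩ := hK₂ ℕ (fun ρ F => Pf (L ρ) Cc (N ρ) F)
    (fun ρ F F' h1 h2 => Pf_anti _ _ _ _ _ h1 h2) H hj (by
      intro ρ t A' hA' hA'inj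
      have hAV : ∀ g i, A' g i ∈ V := fun g i => by
        obtain ⟨j, hj⟩ := hA' g i
        rw [hj]
        exact hHV g j
      have htT : t.card ≤ r := by
        have := card_le_univ t
        rwa [Fintype.card_fin] at this
      set e := t.orderEmbOfFin rfl with he
      have hemem : ∀ g, e g ∈ t := fun g => t.orderEmbOfFin_mem rfl g
      obtain ⟨S, c, hS, hc⟩ := hN₀ (N ρ) (hN ρ) t.card htT
        (fun g i => L ρ (A' (e g) i)) (by
          intro x y hxy
          have h2 := hinj ρ (hAV _ _) (hAV _ _) hxy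
          have h3 := hA'inj (a₁ := (e x.1, x.2)) (a₂ := (e y.1, y.2)) h2
          rw [Prod.mk.injEq] at h3
          exact Prod.ext (e.injective h3.1) h3.2)
        (fun g i => hAd ρ _ (hAV _ _))
        (fun p hp hple => by
          obtain ⟨r, hr⟩ := hloc ρ p hp hple
          exact ⟨r, fun g i => hr _ (hAV _ _)⟩)
      refine ⟨S.map e.toEmbedding, ?_, ?_,
        Function.extend e c (fun _ => ⟨0, hKc⟩), ?_⟩
      · intro i hi
        obtain ⟨g, _, rfl⟩ := Finset.mem_map.1 hi
        exact hemem g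
      · rw [card_map]
        exact hS
      · unfold Pf
        have e1 : ((S.map e.toEmbedding).image (fun g => A' g ((Function.extend e
            c (fun _ => ⟨0, hKc⟩)) g))).image (L ρ) =
            S.image (fun g => L ρ (A' (e g) (c g))) := by
          rw [Finset.map_eq_image, image_image, image_image]
          apply image_congr
          intro g _
          have e2 : (e.toEmbedding : Fin t.card → Fin r) = e := rfl
          simp only [Function.comp, e2]
          rw [e.injective.extend_apply]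
        rw [e1]
        exact hc)
  have h2 := mem_filter.1 (hB2 (fun g => j g (c g)))
  exact h2.2 ⟨S, hS, fun ρ => hG ρ⟩

open Classical in
/-- from vectors to sets of positions, with all their subsets -/
theorem almostSets (V : Finset ℕ) (r : ℕ) (G : Finset ℕ → Prop) (q : ℕ → ℕ → Prop) (δ : ℝ) (hδ : 0 < δ)
    (hV : 2 * r ≤ V.card)
    (h : ∀ t ≤ r, ∃ D : Finset (Fin t → ℕ), (∀ y : Fin t → ℕ, (∀ i, y i ∈ V) →
      (∀ I : Finset (Fin t), q t I.card → ¬ G (I.image y)) → y ∈ D) ∧ (D.card : ℝ) ≤ δ * (V.card : ℝ) ^ t) :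
    ∃ E : Finset (Finset ℕ), (∀ F : Finset ℕ, F ⊆ V → F.card = r → F ∉ E →
      ∀ T ⊆ F, ∃ I ⊆ T, q T.card I.card ∧ G I) ∧
    (E.card : ℝ) ≤ (r + 1) * δ * (2 ^ r * r.factorial) * (V.card.choose r : ℝ) := by
  choose! D hD1 hD2 using h
  set U : ℕ → Finset (Finset ℕ) := fun t => (D t).image (fun y => univ.image y) with hU
  have hUc : ∀ t ≤ r, ((U t).card : ℝ) ≤ δ * (V.card : ℝ) ^ t := fun t ht =>
    le_trans (by exact_mod_cast card_image_le) (hD2 t ht)
  refine ⟨(range (r + 1)).biUnion (fun t => ((U t) ×ˢ (V.powersetCard (r - t))).image (fun z => z.1 ∪ z.2)), ?_, ?_⟩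
  · intro F hFV hFc hFE
    by_contra hF2
    push Not at hF2
    obtain ⟨T, hTF, hT⟩ := hF2
    have hTr : T.card ≤ r := by rw [← hFc]; exact card_le_card hTF
    refine hFE (mem_biUnion.2 ⟨T.card, mem_range.2 (by omega), mem_image.2 ⟨(T, F \ T), ?_, ?_⟩⟩)
    · refine mem_product.2 ⟨?_, ?_⟩
      · refine mem_image.2 ⟨T.orderEmbOfFin rfl, hD1 T.card hTr _ ?_ ?_, ?_⟩
        · exact fun i => hFV (hTF (T.orderEmbOfFin_mem rfl i))
        · intro I hI1 hI2
          refine hT (I.image (T.orderEmbOfFin rfl)) ?_ ?_ hI2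
          · intro x hx
            obtain ⟨i, _, rfl⟩ := mem_image.1 hx
            exact T.orderEmbOfFin_mem rfl i
          · rw [card_image_of_injective _ (T.orderEmbOfFin rfl).injective]
            exact hI1
        · exact T.image_orderEmbOfFin_univ rfl
      · refine mem_powersetCard.2 ⟨sdiff_subset.trans hFV, ?_⟩
        rw [card_sdiff_of_subset hTF, hFc]
    · exact union_sdiff_of_subset hTF
  have h1 : ((((range (r + 1)).biUnion (fun t => ((U t) ×ˢ (V.powersetCard (r - t))).image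
            (fun z => z.1 ∪ z.2))).card : ℕ) : ℝ) ≤
      ∑ t ∈ range (r + 1), δ * (V.card : ℝ) ^ r := by
    calc ((((range (r + 1)).biUnion (fun t => ((U t) ×ˢ (V.powersetCard (r - t))).image
            (fun z => z.1 ∪ z.2))).card : ℕ) : ℝ)
        ≤ ∑ t ∈ range (r + 1), ((((U t) ×ˢ (V.powersetCard (r - t))).image (fun z => z.1 ∪ z.2)).card : ℝ) := by
          exact_mod_cast card_biUnion_le
      _ ≤ ∑ t ∈ range (r + 1), δ * (V.card : ℝ) ^ r := by
          apply sum_le_sum
          intro t ht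
          have htr : t ≤ r := Nat.lt_succ_iff.1 (mem_range.1 ht)
          calc ((((U t) ×ˢ (V.powersetCard (r - t))).image (fun z => z.1 ∪ z.2)).card : ℝ)
              ≤ (((U t) ×ˢ (V.powersetCard (r - t))).card : ℝ) := by exact_mod_cast card_image_le
            _ = ((U t).card : ℝ) * ((V.powersetCard (r - t)).card : ℝ) := by
                rw [card_product]; push_cast; ring
            _ ≤ (δ * (V.card : ℝ) ^ t) * (V.card : ℝ) ^ (r - t) := by
                apply mul_le_mul (hUc t htr) _ (Nat.cast_nonneg _) (by positivity)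
                rw [card_powersetCard]
                exact_mod_cast Nat.choose_le_pow _ _
            _ = δ * (V.card : ℝ) ^ r := by
                rw [mul_assoc, ← pow_add, Nat.add_sub_cancel' htr]
  have h2 : (V.card : ℝ) ^ r ≤ 2 ^ r * r.factorial * (V.card.choose r : ℝ) := by
    have h1 := Nat.pow_sub_le_descFactorial V.card r
    have h2 : (V.card : ℝ) ≤ 2 * ((V.card + 1 - r : ℕ) : ℝ) := by
      have : V.card ≤ 2 * (V.card + 1 - r) := by omega
      exact_mod_cast this
    have h3 : V.card.descFactorial r = r.factorial * V.card.choose r := Nat.descFactorial_eq_factorial_mul_choose _ r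
    have h4 : (((V.card + 1 - r : ℕ) : ℝ)) ^ r ≤ (r.factorial : ℝ) * (V.card.choose r : ℝ) := by
      rw [h3] at h1
      exact_mod_cast h1
    calc (V.card : ℝ) ^ r ≤ (2 * ((V.card + 1 - r : ℕ) : ℝ)) ^ r := pow_le_pow_left₀ (Nat.cast_nonneg _) h2 _
      _ = 2 ^ r * ((V.card + 1 - r : ℕ) : ℝ) ^ r := mul_pow _ _ _
      _ ≤ 2 ^ r * ((r.factorial : ℝ) * (V.card.choose r : ℝ)) := mul_le_mul_of_nonneg_left h4 (by positivity)
      _ = _ := by ring
  rw [sum_const, card_range, nsmul_eq_mul] at h1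
  refine h1.trans ?_
  push_cast
  have h3 : (0 : ℝ) ≤ (r + 1) * δ := by positivity
  calc ((r : ℝ) + 1) * (δ * (V.card : ℝ) ^ r) = ((r + 1) * δ) * (V.card : ℝ) ^ r := by ring
    _ ≤ ((r + 1) * δ) * (2 ^ r * r.factorial * (V.card.choose r : ℝ)) := mul_le_mul_of_nonneg_left h2 h3
    _ = _ := by ring

end Pool.Agent.NH16.CC
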