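import Mathlib
import Pool.Agent.NH16.CC.Alm

set_option autoImplicit false

/-!
# Almost all sets of positions: the forms `d ^ v n + c` for several pairs `(d, c)` at several scales
-/

open Finset Filter

namespace Pool.Agent.NH16.CC

open Pool.Agent.Y827.GS (cntN cntN_anti Adf)
open Pool.Agent.R493.SC (Pf Pf_anti classesN cntG geo_adf geo_loc cntN_le_cntG log_loss inj_card)

open Classical in
theorem geoAlmost (R r : ℕ) (ε : ℝ) (hε : 0 < ε) : ∃ n₀ B : ℕ, ∀ V : Finset ℕ, n₀ ≤ V.card →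
    ∀ (d : Fin R → ℕ) (c : Fin R → ℤ), (∀ ρ, 2 ≤ d ρ ∧ IsCoprime (d ρ : ℤ) (c ρ)) →
    ∃ D N₀ : ℕ, ∀ N : Fin R → ℕ, (∀ ρ, N₀ ≤ N ρ) →
    ∃ Ex : Finset (Finset ℕ), (∀ F : Finset ℕ, F ⊆ V → F.card = r → F ∉ Ex →
      ∀ T ⊆ F, ∃ I ⊆ T, 5 ^ R * T.card ≤ 18 ^ R * I.card ∧
      ∀ ρ, (N ρ : ℝ) / (Real.log (N ρ)) ^ B ≤ (cntG (d ρ) (c ρ) D I (N ρ) : ℝ)) ∧
      (Ex.card : ℝ) ≤ ε * (V.card.choose r : ℝ) := by
  set δ : ℝ := ε / ((r + 1) * (2 ^ r * r.factorial)) with hδ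
  have hδ0 : 0 < δ := by positivity
  choose nf Cf Pf' hf using (fun t => almostSC R t δ hδ0)
  set C : ℕ := ∑ t ∈ range (r + 1), Cf t with hC
  refine ⟨∑ t ∈ range (r + 1), nf t + 2 * r, C + 1, fun V hV d c hdc => ?_⟩
  set W := V.sup id with hW
  set E : ℕ := ∑ ρ, (d ρ ^ W + (c ρ).natAbs) + 1 with hE
  have hE1 : ∀ ρ, d ρ ^ W + (c ρ).natAbs ≤ E := fun ρ =>
    (Finset.single_le_sum (f := fun ρ => d ρ ^ W + (c ρ).natAbs) (fun _ _ => Nat.zero_le _)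
      (mem_univ ρ)).trans (Nat.le_succ _)
  have hE0 : 1 ≤ E := Nat.le_add_left _ _
  choose Nf hNf using (fun t => hf t E)
  obtain ⟨N₁, hN₁⟩ := log_loss C (4 * E) (by omega)
  have hlog : ∀ᶠ N : ℕ in atTop, (1 : ℝ) ≤ Real.log N :=
    (Real.tendsto_log_atTop.comp tendsto_natCast_atTop_atTop).eventually_ge_atTop _
  obtain ⟨N₂, hN₂⟩ := eventually_atTop.1 hlog
  refine ⟨6 * E, ∑ t ∈ range (r + 1), Nf t + N₁ + N₂ + E, fun N hN => ?_⟩
  have hNE : ∀ ρ, E ≤ N ρ := fun ρ => (Nat.le_add_left _ _).trans (hN ρ)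
  have hN4 : ∀ ρ, N ρ ≤ 4 * E * N ρ := fun ρ => by
    have h3 : 1 * N ρ ≤ 4 * E * N ρ := Nat.mul_le_mul_right _ (by omega)
    omega
  have hset := almostSets V r (fun I => ∀ ρ, (N ρ : ℝ) / (Real.log (N ρ)) ^ (C + 1) ≤
      (cntG (d ρ) (c ρ) (6 * E) I (N ρ) : ℝ)) (fun t i => 5 ^ R * t ≤ 18 ^ R * i) δ hδ0 (by omega) (by
    intro t ht
    have htr : t ∈ range (r + 1) := mem_range.2 (by omega)
    have hnt : nf t ≤ V.card := by
      have := Finset.single_le_sum (f := nf) (fun _ _ => Nat.zero_le _) htr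
      omega
    have hCt : Cf t ≤ C := Finset.single_le_sum (f := Cf) (fun _ _ => Nat.zero_le _) htr
    have hNt : Nf t ≤ ∑ t ∈ range (r + 1), Nf t :=
      Finset.single_le_sum (f := Nf) (fun _ _ => Nat.zero_le _) htr
    have h1 := hNf t (fun ρ => 4 * E * N ρ) (fun ρ => by
        have h2 := hN ρ
        have h3 := hN4 ρ
        show Nf t ≤ 4 * E * N ρ
        omega) V hnt
      (fun ρ v => ((d ρ : ℤ) ^ v, (d ρ : ℤ) ^ v * (N ρ + E) + c ρ))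
      (fun ρ u _ v _ huv => by
        simp only [Prod.mk.injEq] at huv
        have h3 : d ρ ^ u = d ρ ^ v := by exact_mod_cast huv.1
        exact Nat.pow_right_injective (hdc ρ).1 h3)
      (fun ρ v hv => geo_adf (hdc ρ).1 (hdc ρ).2 ((Nat.le_add_right _ _).trans (hE1 ρ))
        ((Nat.le_add_left _ _).trans (hE1 ρ)) (Finset.le_sup (f := id) hv) (hNE ρ))
      (fun ρ p hp _ => by
        obtain ⟨r, hr⟩ := geo_loc (d := d ρ) (E := E) (N := N ρ) (hdc ρ).2 hp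
        exact ⟨r, fun v _ => hr v⟩)
    obtain ⟨D, hD1, hD2⟩ := h1
    refine ⟨D, fun y hyV hy => hD1 y hyV fun I hI1 hI2 => hy I hI1 fun ρ => ?_, hD2⟩
    refine (hN₁ (N ρ) (by have := hN ρ; omega)).trans (le_trans ?_ ((hI2 ρ).trans ?_))
    · have hl : (1 : ℝ) ≤ Real.log ((4 * E * N ρ : ℕ) : ℝ) := hN₂ _ (by
        have h5 := hN ρ
        have h6 := hN4 ρ
        omega)
      exact div_le_div_of_nonneg_left (Nat.cast_nonneg _) (by positivity) (pow_le_pow_right₀ hl hCt)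
    · rw [Nat.cast_le]
      exact cntN_le_cntG (d := d ρ) (c := c ρ) hE0 (hNE ρ) (I.image y))
  obtain ⟨Ex, hEx1, hEx2⟩ := hset
  refine ⟨Ex, hEx1, hEx2.trans (le_of_eq ?_)⟩
  rw [hδ]
  field_simp

end Pool.Agent.NH16.CC
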