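import Mathlib
import Pool.Agent.NH16.CC.Alm
import Pool.Agent.Y827.RO.NarF

set_option autoImplicit false

/-!
# Almost all sets of positions have large parts which are prime together along narrow progressions
-/

open Finset Filter

namespace Pool.Agent.NH16.CC

open Pool.Agent.Y827.RO (QN QN_anti QN_mono narRD)
open Pool.Agent.R493.CP (nestG)

/-- any `T ≤ r` classes of `K` linear forms have `5 T / 18` members of different classes which are often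
prime together along narrow progressions -/
theorem classesQ (r : ℕ) : ∃ K : ℕ, 1 ≤ K ∧ ∀ T : ℕ, T ≤ r → ∀ H : Fin T → Fin K → ℤ × ℤ,
    Function.Injective (fun x : Fin T × Fin K => H x.1 x.2) →
    (∀ g i, 0 < (H g i).1 ∧ IsCoprime (H g i).1 (H g i).2) →
    (∀ p : ℕ, p.Prime → ∃ r : ℤ, ∀ g i, ¬ (p : ℤ) ∣ (H g i).1 * r + (H g i).2) → ∀ l : ℕ,
    ∃ C : ℕ, ∀ᶠ N : ℕ in atTop, ∃ (S : Finset (Fin T)) (c : Fin T → Fin K), 5 * T ≤ 18 * S.card ∧
      QN l C N (S.image (fun g => H g (c g))) := by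
  choose Kf hKf1 hKf using narRD
  set K : ℕ := ∑ T ∈ range (r + 1), Kf T with hK
  have hle : ∀ T ≤ r, Kf T ≤ K := fun T hT =>
    Finset.single_le_sum (f := Kf) (fun _ _ => Nat.zero_le _) (mem_range.2 (by omega))
  have hK1 : 1 ≤ K := (hKf1 0).trans (hle 0 (Nat.zero_le _))
  refine ⟨K, hK1, fun T hTr H hinj hpos hloc l => ?_⟩
  rcases Nat.eq_zero_or_pos T with hT0 | hT
  · subst hT0
    refine ⟨1, ?_⟩
    have hlog : ∀ᶠ N : ℕ in atTop, (1 : ℝ) ≤ Real.log N :=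
      (Real.tendsto_log_atTop.comp tendsto_natCast_atTop_atTop).eventually_ge_atTop _
    filter_upwards [hlog] with N hN
    refine ⟨∅, fun _ => ⟨0, hK1⟩, by simp, 1, le_rfl, by simpa using hN, ?_⟩
    unfold Pool.Agent.Y827.RO.cntA
    simp only [image_empty, notMem_empty, false_imp_iff, implies_true, filter_true,
      Nat.card_Icc, Nat.add_sub_cancel]
    rw [pow_one]
    exact div_le_self (Nat.cast_nonneg _) hN
  set H' : Fin T → Fin (Kf T) → ℤ × ℤ := fun g i => H g (Fin.castLE (hle T hTr) i) with hH'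
  have hinj' : Function.Injective (fun x : Fin T × Fin (Kf T) => H' x.1 x.2) := by
    intro x y hxy
    have h1 := hinj (a₁ := (x.1, Fin.castLE (hle T hTr) x.2)) (a₂ := (y.1, Fin.castLE (hle T hTr) y.2)) hxy
    rw [Prod.mk.injEq] at h1
    exact Prod.ext h1.1 (Fin.castLE_injective (hle T hTr) h1.2)
  obtain ⟨C, hC⟩ := hKf T hT H' hinj' (fun g i => hpos g _)
    (fun p hp _ => by
      obtain ⟨r, hr⟩ := hloc p hp
      exact ⟨r, fun g i => hr g _⟩) l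
  refine ⟨C, ?_⟩
  filter_upwards [hC] with N hN
  obtain ⟨S, c, hS, hc⟩ := hN
  refine ⟨S, fun g => Fin.castLE (hle T hTr) (c g), ?_, hc⟩
  have h5 : (5 * T : ℝ) ≤ 18 * S.card := by linarith
  exact_mod_cast h5

open Classical in
/-- almost all vectors of `r` positions have a large part which is good for several families of linear forms at
several scales -/
theorem almostNar (R r : ℕ) (ε : ℝ) (hε : 0 < ε) : ∃ n₀ : ℕ, ∀ V : Finset ℕ, n₀ ≤ V.card →
    ∀ L : Fin R → ℕ → ℤ × ℤ, (∀ ρ, Set.InjOn (L ρ) V) →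
    (∀ ρ, ∀ v ∈ V, 0 < (L ρ v).1 ∧ IsCoprime (L ρ v).1 (L ρ v).2) →
    (∀ ρ, ∀ p : ℕ, p.Prime → ∃ r : ℤ, ∀ v ∈ V, ¬ (p : ℤ) ∣ (L ρ v).1 * r + (L ρ v).2) → ∀ l : ℕ,
    ∃ C N₀ : ℕ, ∀ N : Fin R → ℕ, (∀ ρ, N₀ ≤ N ρ) →
    ∃ D : Finset (Fin r → ℕ), (∀ y : Fin r → ℕ, (∀ i, y i ∈ V) → (∀ I : Finset (Fin r),
      5 ^ R * r ≤ 18 ^ R * I.card → ¬ ∀ ρ, QN l C (N ρ) ((I.image y).image (L ρ))) → y ∈ D) ∧
      (D.card : ℝ) ≤ ε * (V.card : ℝ) ^ r := by
  obtain ⟨Kc, hKc, hcl⟩ := classesQ r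
  obtain ⟨K₂, hK₂⟩ := nestG R r Kc
  obtain ⟨n₀, hn₀⟩ := Pool.Agent.H362R2.CM.box_lemma r (r * K₂) ε hε
  refine ⟨n₀, fun V hV L hinj hpos hloc l => ?_⟩
  -- the constants for all the finitely many families of classes
  have hfam : ∀ z : Fin R × (Σ T : Fin (r + 1), (Fin (T : ℕ) → Fin Kc → V)), ∃ C : ℕ, ∀ᶠ N : ℕ in atTop,
      Function.Injective (fun x : Fin (z.2.1 : ℕ) × Fin Kc => ((z.2.2 x.1 x.2 : V) : ℕ)) →
      ∃ (S : Finset (Fin (z.2.1 : ℕ))) (c : Fin (z.2.1 : ℕ) → Fin Kc), 5 * (z.2.1 : ℕ) ≤ 18 * S.card ∧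
        QN l C N (S.image (fun g => L z.1 ((z.2.2 g (c g) : V) : ℕ))) := by
    intro z
    by_cases h1 : Function.Injective (fun x : Fin (z.2.1 : ℕ) × Fin Kc => ((z.2.2 x.1 x.2 : V) : ℕ))
    swap
    · exact ⟨0, Eventually.of_forall fun x h => absurd h h1⟩
    obtain ⟨C, hC⟩ := hcl z.2.1 (by have := z.2.1.2; omega)
      (fun g i => L z.1 ((z.2.2 g i : V) : ℕ)) (by
        intro x y hxy
        exact h1 (hinj z.1 (z.2.2 x.1 x.2).2 (z.2.2 y.1 y.2).2 hxy))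
      (fun g i => hpos z.1 _ (z.2.2 g i).2)
      (fun p hp => by
        obtain ⟨r, hr⟩ := hloc z.1 p hp
        exact ⟨r, fun g i => hr _ (z.2.2 g i).2⟩) l
    refine ⟨C, ?_⟩
    filter_upwards [hC] with N hN _
    exact hN
  choose Cf hCf using hfam
  have hev := (eventually_all.2 hCf).and (eventually_ge_atTop 3)
  obtain ⟨N₀, hN₀⟩ := eventually_atTop.1 hev
  set C : ℕ := ∑ z, Cf z with hC
  have hCle : ∀ z, Cf z ≤ C := fun z => single_le_sum (f := Cf) (fun _ _ => Nat.zero_le _) (mem_univ z)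
  refine ⟨C, N₀, fun N hN => ?_⟩
  set D := (Fintype.piFinset (fun _ : Fin r => V)).filter (fun y => ¬ ∃ I : Finset (Fin r),
      5 ^ R * r ≤ 18 ^ R * I.card ∧ ∀ ρ, QN l C (N ρ) ((I.image y).image (L ρ))) with hD
  refine ⟨D, fun y hyV hy => ?_, ?_⟩
  · rw [hD, mem_filter]
    refine ⟨Fintype.mem_piFinset.2 hyV, ?_⟩
    rintro ⟨I, hI1, hI2⟩
    exact hy I hI1 hI2
  by_contra hcon
  rw [not_le] at hcon
  obtain ⟨B, hB1, hB2⟩ := hn₀ ℕ (fun _ => V) (fun _ => hV) D (filter_subset _ _) (by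
    rw [prod_const, card_univ, Fintype.card_fin]
    exact hcon.le)
  obtain ⟨j, hj⟩ := disj_rows r K₂ (r * K₂) le_rfl B hB1
  set H : Fin r → Fin K₂ → ℕ := fun g i => B g (j g i) with hH
  have hHV : ∀ g i, H g i ∈ V := by
    intro g i
    have h1 := (mem_filter.1 (hB2 (fun _ => j g i))).1
    exact Fintype.mem_piFinset.1 h1 g
  obtain ⟨S, c, hS, hG⟩ := hK₂ ℕ (fun ρ F => QN l C (N ρ) (F.image (L ρ)))
    (fun ρ F F' h1 h2 => QN_anti (image_subset_image h1) h2) H hj (by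
      intro ρ t A' hA' hA'inj
      have hAV : ∀ g i, A' g i ∈ V := fun g i => by
        obtain ⟨j, hj⟩ := hA' g i
        rw [hj]
        exact hHV g j
      have htT : t.card ≤ r := by
        have := card_le_univ t
        rwa [Fintype.card_fin] at this
      set e := t.orderEmbOfFin rfl with he
      have hemem : ∀ g, e g ∈ t := fun g => t.orderEmbOfFin_mem rfl g
      have h7 := (hN₀ (N ρ) (hN ρ)).1 (ρ, ⟨⟨t.card, by omega⟩, fun g i => ⟨A' (e g) i, hAV _ _⟩⟩)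
      obtain ⟨S, c, hS, hc⟩ := h7 (by
          intro x y hxy
          have h3 := hA'inj (a₁ := (e x.1, x.2)) (a₂ := (e y.1, y.2)) hxy
          rw [Prod.mk.injEq] at h3
          exact Prod.ext (e.injective h3.1) h3.2)
      refine ⟨S.map e.toEmbedding, ?_, ?_,
        Function.extend e c (fun _ => ⟨0, hKc⟩), ?_⟩
      · intro i hi
        obtain ⟨g, _, rfl⟩ := Finset.mem_map.1 hi
        exact hemem g
      · rw [card_map]
        exact hS
      · have e1 : ((S.map e.toEmbedding).image (fun g => A' g ((Function.extend e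
            c (fun _ => ⟨0, hKc⟩)) g))).image (L ρ) =
            S.image (fun g => L ρ (A' (e g) (c g))) := by
          rw [Finset.map_eq_image, image_image, image_image]
          apply image_congr
          intro g _
          have e2 : (e.toEmbedding : Fin t.card → Fin r) = e := rfl
          simp only [Function.comp, e2]
          rw [e.injective.extend_apply]
        rw [e1]
        exact QN_mono (hN₀ (N ρ) (hN ρ)).2 (hCle _) hc)
  have h2 := mem_filter.1 (hB2 (fun g => j g (c g)))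
  refine h2.2 ⟨S, hS, fun ρ => ?_⟩
  have h3 := hG ρ
  exact h3

end Pool.Agent.NH16.CC

namespace Pool.Agent.NH16.CC

open Pool.Agent.Y827.RO (QN QN_anti QN_mono narRD)

open Classical in
/-- all subsets of almost all sets of positions -/
theorem narSets (R r : ℕ) (ε : ℝ) (hε : 0 < ε) : ∃ n₀ : ℕ, ∀ V : Finset ℕ, n₀ ≤ V.card →
    ∀ L : Fin R → ℕ → ℤ × ℤ, (∀ ρ, Set.InjOn (L ρ) V) →
    (∀ ρ, ∀ v ∈ V, 0 < (L ρ v).1 ∧ IsCoprime (L ρ v).1 (L ρ v).2) →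
    (∀ ρ, ∀ p : ℕ, p.Prime → ∃ r : ℤ, ∀ v ∈ V, ¬ (p : ℤ) ∣ (L ρ v).1 * r + (L ρ v).2) → ∀ l : ℕ,
    ∃ C N₀ : ℕ, ∀ N : Fin R → ℕ, (∀ ρ, N₀ ≤ N ρ) →
    ∃ Ex : Finset (Finset ℕ), (∀ F : Finset ℕ, F ⊆ V → F.card = r → F ∉ Ex →
      ∀ T ⊆ F, ∃ I ⊆ T, 5 ^ R * T.card ≤ 18 ^ R * I.card ∧ ∀ ρ, QN l C (N ρ) (I.image (L ρ))) ∧
      (Ex.card : ℝ) ≤ ε * (V.card.choose r : ℝ) := by
  set δ : ℝ := ε / ((r + 1) * (2 ^ r * r.factorial)) with hδ
  have hδ0 : 0 < δ := by positivity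
  choose nf hf using (fun t => almostNar R t δ hδ0)
  refine ⟨∑ t ∈ range (r + 1), nf t + 2 * r, fun V hV L hinj hpos hloc l => ?_⟩
  have hfin : ∀ t : Fin (r + 1), ∃ C N₀ : ℕ, ∀ N : Fin R → ℕ, (∀ ρ, N₀ ≤ N ρ) →
      ∃ D : Finset (Fin (t : ℕ) → ℕ), (∀ y : Fin (t : ℕ) → ℕ, (∀ i, y i ∈ V) → (∀ I : Finset (Fin (t : ℕ)),
      5 ^ R * (t : ℕ) ≤ 18 ^ R * I.card → ¬ ∀ ρ, QN l C (N ρ) ((I.image y).image (L ρ))) → y ∈ D) ∧
      (D.card : ℝ) ≤ δ * (V.card : ℝ) ^ (t : ℕ) := by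
    intro t
    have htr : (t : ℕ) ∈ range (r + 1) := mem_range.2 t.2
    exact hf t V (by
      have := Finset.single_le_sum (f := nf) (fun _ _ => Nat.zero_le _) htr
      omega) L hinj hpos hloc l
  choose Cf Nf hN using hfin
  have hC : ∀ t, Cf t ≤ ∑ t, Cf t := fun t => single_le_sum (f := Cf) (fun _ _ => Nat.zero_le _) (mem_univ t)
  have hNf : ∀ t, Nf t ≤ ∑ t, Nf t := fun t => single_le_sum (f := Nf) (fun _ _ => Nat.zero_le _) (mem_univ t)
  refine ⟨∑ t, Cf t, ∑ t, Nf t + 3, fun N hNN => ?_⟩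
  obtain ⟨Ex, hEx1, hEx2⟩ := almostSets V r (fun I => ∀ ρ, QN l (∑ t, Cf t) (N ρ) (I.image (L ρ)))
    (fun t i => 5 ^ R * t ≤ 18 ^ R * i) δ hδ0 (by omega) (by
    intro t ht
    obtain ⟨D, hD1, hD2⟩ := hN ⟨t, by omega⟩ N (fun ρ => by
      have h1 := hNN ρ
      have h2 := hNf ⟨t, by omega⟩
      omega)
    refine ⟨D, fun y hy h => hD1 y hy fun I hI hQ => h I hI fun ρ => ?_, hD2⟩
    exact QN_mono (by have := hNN ρ; omega) (hC _) (hQ ρ))
  refine ⟨Ex, hEx1, hEx2.trans (le_of_eq ?_)⟩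
  rw [hδ]
  field_simp

end Pool.Agent.NH16.CC
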