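import Mathlib
import Pool.Agent.NH16.CC.Nar
import Pool.Agent.R493.SC.Tup

set_option autoImplicit false

/-!
# A share of all tuples of positions which are prime together along narrow progressions at several scales
-/

open Finset Filter

namespace Pool.Agent.NH16.CC

open Pool.Agent.Y827.RO (QN QN_anti QN_mono narRD)
open Pool.Agent.W25.QL (main_gen count_pow QProp)
open Pool.Agent.R493.CP (nestG)

open Classical in
/-- tuples of positions which are good for several families of linear forms at several scales, along progressions -/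
theorem tuplesNar (R k : ℕ) (ε : ℝ) (hε : 0 < ε) : ∃ n₀ : ℕ, ∀ V : Finset ℕ, n₀ ≤ V.card →
    ∀ L : Fin R → ℕ → ℤ × ℤ, (∀ ρ, Set.InjOn (L ρ) V) →
    (∀ ρ, ∀ v ∈ V, 0 < (L ρ v).1 ∧ IsCoprime (L ρ v).1 (L ρ v).2) →
    (∀ ρ, ∀ p : ℕ, p.Prime → ∃ r : ℤ, ∀ v ∈ V, ¬ (p : ℤ) ∣ (L ρ v).1 * r + (L ρ v).2) → ∀ l : ℕ,
    ∃ C N₀ : ℕ, ∀ N : Fin R → ℕ, (∀ ρ, N₀ ≤ N ρ) →
    ((5 / 18) ^ (R * k) - ε) * (V.card : ℝ) ^ (k + 1) ≤
      (((Fintype.piFinset (fun _ : Fin (k + 1) => V)).filter (fun y => Function.Injective y ∧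
        ∀ ρ, QN l C (N ρ) ((univ.image y).image (L ρ)))).card : ℝ) := by
  choose Kc hKc hcl using classesQ
  choose K₂ hK₂ using (fun T => nestG R T (Kc T))
  have hlam : (0 : ℝ) < (18 / 5) ^ R := by positivity
  obtain ⟨T, M, hT, hM⟩ := main_gen (lam := (18 / 5) ^ R) hlam k ((5 / 18) ^ (R * k))
    (pow_le_one₀ (by norm_num) (by norm_num)) (by
      intro ε hε
      have e : ((5 : ℝ) / 18) ^ (R * k) = (1 / (18 / 5) ^ R) ^ k := by
        rw [pow_mul, one_div, ← inv_pow]
        norm_num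
      rw [e]
      exact count_pow (one_le_pow₀ (by norm_num)) k ε hε) ε hε K₂
  obtain ⟨n₀, hn₀⟩ := hM Unit
  refine ⟨n₀, fun V hV L hinj hpos hloc l => ?_⟩
  -- the constants for all the finitely many families of classes
  have hfam : ∀ z : (Σ T' : Fin (M + 1), Fin R × (Σ T : Fin ((T' : ℕ) + 1), (Fin (T : ℕ) → Fin (Kc T') → V))),
      ∃ C : ℕ, ∀ᶠ N : ℕ in atTop,
      Function.Injective (fun x : Fin (z.2.2.1 : ℕ) × Fin (Kc z.1) => ((z.2.2.2 x.1 x.2 : V) : ℕ)) →
      ∃ (S : Finset (Fin (z.2.2.1 : ℕ))) (c : Fin (z.2.2.1 : ℕ) → Fin (Kc z.1)),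
        5 * (z.2.2.1 : ℕ) ≤ 18 * S.card ∧
        QN l C N (S.image (fun g => L z.2.1 ((z.2.2.2 g (c g) : V) : ℕ))) := by
    intro z
    by_cases h1 : Function.Injective (fun x : Fin (z.2.2.1 : ℕ) × Fin (Kc z.1) => ((z.2.2.2 x.1 x.2 : V) : ℕ))
    swap
    · exact ⟨0, Eventually.of_forall fun x h => absurd h h1⟩
    obtain ⟨C, hC⟩ := hcl z.1 z.2.2.1 (by have := z.2.2.1.2; omega)
      (fun g i => L z.2.1 ((z.2.2.2 g i : V) : ℕ)) (by
        intro x y hxy
        exact h1 (hinj z.2.1 (z.2.2.2 x.1 x.2).2 (z.2.2.2 y.1 y.2).2 hxy))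
      (fun g i => hpos z.2.1 _ (z.2.2.2 g i).2)
      (fun p hp => by
        obtain ⟨r, hr⟩ := hloc z.2.1 p hp
        exact ⟨r, fun g i => hr _ (z.2.2.2 g i).2⟩) l
    refine ⟨C, ?_⟩
    filter_upwards [hC] with N hN _
    exact hN
  choose Cf hCf using hfam
  have hev := (eventually_all.2 hCf).and (eventually_ge_atTop 3)
  obtain ⟨N₀, hN₀⟩ := eventually_atTop.1 hev
  set C : ℕ := ∑ z, Cf z with hC
  have hCle : ∀ z, Cf z ≤ C := fun z => single_le_sum (f := Cf) (fun _ _ => Nat.zero_le _) (mem_univ z)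
  refine ⟨C, N₀, fun N hN => ?_⟩
  refine (hn₀ ℕ V (fun _ => ()) (fun F => ∀ ρ, QN l C (N ρ) (F.image (L ρ))) hV
    (fun F F' hF h ρ => QN_anti (image_subset_image hF) (h ρ)) ?_).trans (le_of_eq ?_)
  · intro T' hT'1 hT'M H hHV hHinj _
    obtain ⟨S, c, hS, hG⟩ := hK₂ T' ℕ (fun ρ F => QN l C (N ρ) (F.image (L ρ)))
      (fun ρ F F' h1 h2 => QN_anti (image_subset_image h1) h2) H hHinj (by
      intro ρ t A' hA' hA'inj
      have hAV : ∀ g i, A' g i ∈ V := fun g i => by
        obtain ⟨j, hj⟩ := hA' g i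
        rw [hj]
        exact hHV g j
      have htT : t.card ≤ T' := by
        have := card_le_univ t
        rwa [Fintype.card_fin] at this
      set e := t.orderEmbOfFin rfl with he
      have hemem : ∀ g, e g ∈ t := fun g => t.orderEmbOfFin_mem rfl g
      have h7 := (hN₀ (N ρ) (hN ρ)).1 ⟨⟨T', by omega⟩, ρ, ⟨⟨t.card, by
        show t.card < T' + 1
        omega⟩, fun g i => ⟨A' (e g) i, hAV _ _⟩⟩⟩
      obtain ⟨S, c, hS, hc⟩ := h7 (by
          intro x y hxy
          have h3 := hA'inj (a₁ := (e x.1, x.2)) (a₂ := (e y.1, y.2)) hxy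
          rw [Prod.mk.injEq] at h3
          exact Prod.ext (e.injective h3.1) h3.2)
      refine ⟨S.map e.toEmbedding, ?_, ?_,
        Function.extend e c (fun _ => ⟨0, hKc T'⟩), ?_⟩
      · intro i hi
        obtain ⟨g, _, rfl⟩ := Finset.mem_map.1 hi
        exact hemem g
      · rw [card_map]
        exact hS
      · have e1 : ((S.map e.toEmbedding).image (fun g => A' g ((Function.extend e
            c (fun _ => ⟨0, hKc T'⟩)) g))).image (L ρ) =
            S.image (fun g => L ρ (A' (e g) (c g))) := by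
          rw [Finset.map_eq_image, image_image, image_image]
          apply image_congr
          intro g _
          have e2 : (e.toEmbedding : Fin t.card → Fin T') = e := rfl
          simp only [Function.comp, e2]
          rw [e.injective.extend_apply]
        rw [e1]
        exact QN_mono (hN₀ (N ρ) (hN ρ)).2 (hCle _) hc)
    refine ⟨S, c, ?_, hG⟩
    have h5 : ((5 : ℝ) ^ R * T' : ℝ) ≤ 18 ^ R * S.card := by exact_mod_cast hS
    rw [div_pow, div_mul_eq_mul_div, le_div_iff₀ (by positivity)]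
    linarith
  · congr!

end Pool.Agent.NH16.CC
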